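import Pool.Agent.helper66.SL.SpecA

set_option autoImplicit false

namespace Pool.Agent.helper66.SL

open Pool.Agent.helper52.FC

theorem BIJ_coatom {E : Type} [Finite E] (hGEO : GEO) {L : Set (E → SignType)} (hL : IsOM L)
    (hs : IsSimple L) {T X : E → SignType} (hT : IsTope L T) (hX : X ∈ L) (hle : Le X T)
    (hne : X ≠ T) : ∃ e, Wall L T e ∧ X e = 0 := by
  have hR : IsTope L (cmp X (fun e => -T e)) := tope_of (hL.comp X hX _ (hL.neg T hT.1)) fun f => by
    by_cases h : X f = 0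
    · rw [cmp_pos h]; simpa using tope_supp hL hs hT f
    · rw [cmp_neg h]; exact h
  have hTR : T ≠ cmp X (fun e => -T e) := by
    intro h
    apply hne
    funext f
    rcases hle f with h1 | h1
    · have h2 := congrFun h f
      rw [cmp_pos h1] at h2
      exact absurd (sneg h2 rfl) (tope_supp hL hs hT f)
    · exact h1
  obtain ⟨e, he, hne2⟩ := hGEO E L hL hs T _ hT hR hTR
  refine ⟨e, he, ?_⟩
  rcases hle e with h | h
  · exact h
  · by_contra h0
    exact hne2 (by rw [cmp_neg h0]; exact h.symm)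

theorem BIJ_proof (hWFZ : WFZ) (hGEO : GEO) : BIJ := by
  intro E _ L hG T hT
  have hL := hG.om
  have hs := hG.simple
  obtain ⟨n, φ, hφ⟩ := hG.simplicial T hT
  have hTT : Le T T := fun e => Or.inr rfl
  have leF : ∀ e, Le (fz T e) T := fun e f => by
    by_cases h : f = e
    · subst h; exact Or.inl (fz_same T f)
    · exact Or.inr (fz_ne T h)
  -- `X e = 0` iff `X` is below `fz T e`
  have zF : ∀ X, Le X T → ∀ e, (X e = 0 ↔ Le X (fz T e)) := by
    intro X hX e
    constructor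
    · intro h f
      by_cases hf : f = e
      · subst hf; exact Or.inl h
      · rcases hX f with h1 | h1
        · exact Or.inl h1
        · exact Or.inr (by rw [fz_ne T hf]; exact h1)
    · intro h
      rcases h e with h1 | h1
      · exact h1
      · rw [h1, fz_same]
  have hFne : ∀ e, fz T e ≠ T := fun e h => by
    have := congrFun h e
    rw [fz_same] at this
    exact tope_supp hL hs hT e this.symm
  have top : φ ⟨T, hT.1, hTT⟩ = Set.univ := by
    have h1 := (hφ (φ.symm Set.univ) ⟨T, hT.1, hTT⟩).1 (φ.symm Set.univ).2.2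
    rw [Equiv.apply_symm_apply] at h1
    exact Set.univ_subset_iff.1 h1
  have ntop : ∀ X : {X : E → SignType // X ∈ L ∧ Le X T}, X.1 ≠ T → ∃ i, i ∉ φ X := by
    intro X hX
    by_contra hcon
    push Not at hcon
    have h1 : φ X = Set.univ := Set.eq_univ_of_forall hcon
    rw [← top] at h1
    have h2 := φ.injective h1
    exact hX (congrArg Subtype.val h2)
  have hc : ∀ i : Fin n, ∃ e, ∃ h : Wall L T e,
      φ ⟨fz T e, (hWFZ E L hL hs T hT e).1 h, leF e⟩ = {i}ᶜ := by
    intro i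
    have h1 : (φ.symm {i}ᶜ).1 ≠ T := by
      intro h
      have h2 : φ.symm {i}ᶜ = ⟨T, hT.1, hTT⟩ := Subtype.ext h
      have h3 := congrArg φ h2
      rw [Equiv.apply_symm_apply, top] at h3
      have h4 : i ∈ ({i}ᶜ : Set (Fin n)) := by rw [h3]; trivial
      exact h4 rfl
    obtain ⟨e, he, hz⟩ := BIJ_coatom hGEO hL hs hT (φ.symm {i}ᶜ).2.1 (φ.symm {i}ᶜ).2.2 h1
    refine ⟨e, he, ?_⟩
    have h5 := (zF _ (φ.symm {i}ᶜ).2.2 e).1 hz
    have h6 := (hφ (φ.symm {i}ᶜ) ⟨fz T e, (hWFZ E L hL hs T hT e).1 he, leF e⟩).1 h5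
    rw [Equiv.apply_symm_apply] at h6
    obtain ⟨j, hj⟩ := ntop ⟨fz T e, (hWFZ E L hL hs T hT e).1 he, leF e⟩ (hFne e)
    have hji : j = i := by
      by_contra hne
      exact hj (h6 hne)
    subst hji
    refine Set.Subset.antisymm (fun k hk hkj => ?_) h6
    rw [Set.mem_singleton_iff.1 hkj] at hk
    exact hj hk
  choose c hcw hcφ using hc
  have key : ∀ X : {X : E → SignType // X ∈ L ∧ Le X T}, ∀ i, (X.1 (c i) = 0 ↔ i ∉ φ X) := by
    intro X i
    rw [zF X.1 X.2.2 (c i)]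
    have h1 := hφ X ⟨fz T (c i), (hWFZ E L hL hs T hT (c i)).1 (hcw i), leF (c i)⟩
    rw [hcφ i] at h1
    rw [h1]
    exact Set.subset_compl_singleton_iff
  have surj : ∀ e, Wall L T e → ∃ i, c i = e := by
    intro e he
    obtain ⟨i, hi⟩ := ntop ⟨fz T e, (hWFZ E L hL hs T hT e).1 he, leF e⟩ (hFne e)
    refine ⟨i, ?_⟩
    have h1 := (key _ i).2 hi
    by_contra hne
    have h2 : fz T e (c i) = 0 := h1
    rw [fz_ne T hne] at h2
    exact tope_supp hL hs hT _ h2
  constructor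
  · intro J hJ
    refine ⟨(φ.symm {i | c i ∉ J}).1, (φ.symm {i | c i ∉ J}).2.1, (φ.symm {i | c i ∉ J}).2.2, ?_⟩
    intro e he
    obtain ⟨i, rfl⟩ := surj e he
    rw [key, Equiv.apply_symm_apply]
    simp
  · intro X hX Y hY hXT hYT h
    refine (hφ ⟨X, hX, hXT⟩ ⟨Y, hY, hYT⟩).2 fun i hi => ?_
    by_contra hni
    have h1 := (key ⟨Y, hY, hYT⟩ i).2 hni
    have h2 := (key ⟨X, hX, hXT⟩ i).1 (h (c i) (hcw i) h1)
    exact h2 hi

end Pool.Agent.helper66.SL
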