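import Pool.Agent.helper66.SL.SpecA

set_option autoImplicit false

namespace Pool.Agent.helper66.SL

open Pool.Agent.helper52.FC

theorem CHN_proof (hWFZ : WFZ) (hGEO : GEO) (hXJW : XJW) : CHN := by
  intro E _ L hG e Q
  have hL := hG.om
  have hs := hG.simple
  have key : ∀ (n : ℕ) (S R : E → SignType), dist S R ≤ n → IsTope L S → IsTope L R →
    Wall L S e → Wall L R e → S e = R e → Q S →
    (∀ S S' Z, IsTope L S → IsTope L S' → Cork L Z 2 → Z e = 0 → Le Z S → Le Z S' → Wall L S e →
      Wall L S' e → S e = S' e → S ≠ S' → Q S → Q S') → Q R := by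
    intro n
    induction n with
    | zero =>
      intro S R hd hS hR hSe hRe he hQ hstep
      have h1 : {g | S g ≠ R g} = ∅ := (Set.ncard_eq_zero (Set.toFinite _)).1 (Nat.le_zero.1 hd)
      have h2 : S = R := by
        funext g
        by_contra hg
        have : g ∈ {g | S g ≠ R g} := hg
        rw [h1] at this
        exact this
      rwa [← h2]
    | succ n ih =>
      intro S R hd hS hR hSe hRe he hQ hstep
      by_cases hSR : S = R
      · rwa [← hSR]
      obtain ⟨l, hl, hne⟩ := hGEO E L hL hs S R hS hR hSR
      have hle : l ≠ e := fun h => hne (by rw [h]; exact he)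
      obtain ⟨Z, hZ, hZS, hZw⟩ := hXJW E L hG S hS {e, l} (by
        intro f hf
        rcases hf with h | h
        · rw [h]; exact hSe
        · rw [Set.mem_singleton_iff.1 h]; exact hl)
      rw [Set.ncard_pair hle.symm] at hZ
      have hZe : Z e = 0 := (hZw e hSe).2 (Or.inl rfl)
      have hZl : Z l = 0 := (hZw l hl).2 (Or.inr rfl)
      have hT : IsTope L (cmp Z R) := tope_of (hL.comp Z hZ.1 R hR.1) fun f => by
        by_cases h : Z f = 0
        · rw [cmp_pos h]; exact tope_supp hL hs hR f
        · rw [cmp_neg h]; exact h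
      have hTe : S e = cmp Z R e := by rw [cmp_pos hZe]; exact he
      have hTw : Wall L (cmp Z R) e := by
        rw [hWFZ E L hL hs _ hT e]
        have h3 : fz (cmp Z R) e = cmp Z (fz R e) := by
          funext f
          by_cases hf : f = e
          · subst hf
            rw [fz_same, cmp_pos hZe, fz_same]
          · rw [fz_ne _ hf]
            by_cases hx : Z f = 0
            · rw [cmp_pos hx, cmp_pos hx, fz_ne _ hf]
            · rw [cmp_neg hx, cmp_neg hx]
        rw [h3]
        exact hL.comp Z hZ.1 _ ((hWFZ E L hL hs R hR e).1 hRe)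
      have hne2 : S ≠ cmp Z R := fun h => hne (by
        have := congrFun h l
        rw [cmp_pos hZl] at this
        exact this)
      have hQ' : Q (cmp Z R) := hstep S (cmp Z R) Z hS hT hZ hZe hZS (le_cmp Z R) hSe hTw hTe hne2 hQ
      refine ih (cmp Z R) R ?_ hT hR hTw hRe (by rw [← hTe]; exact he) hQ' hstep
      have hlt : {g | cmp Z R g ≠ R g}.ncard < {g | S g ≠ R g}.ncard := by
        refine Set.ncard_lt_ncard ⟨?_, ?_⟩ (Set.toFinite _)
        · intro g hg hgg
          have hg' : cmp Z R g ≠ R g := hg
          by_cases hx : Z g = 0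
          · rw [cmp_pos hx] at hg'; exact hg' rfl
          · rw [cmp_neg hx] at hg'
            rcases hZS g with h | h
            · exact hx h
            · exact hg' (h.trans hgg)
        · intro hsub
          have : l ∈ {g | cmp Z R g ≠ R g} := hsub hne
          exact this (by rw [cmp_pos hZl])
      unfold dist at hd ⊢
      omega
  intro S R hS hR hSe hRe he hQ hstep
  exact key _ S R le_rfl hS hR hSe hRe he hQ hstep

end Pool.Agent.helper66.SL
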