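import Pool.Agent.helper66.SL.SpecA

set_option autoImplicit false

namespace Pool.Agent.helper66.SL

open Pool.Agent.helper52.FC

theorem GAT_proof : GAT := by
  intro E _ L hL hs X hX g hg
  obtain ⟨S, R, hS, hR, h1, h2⟩ := exists_diff hL hs g
  have supp : ∀ Y, IsTope L Y → IsTope L (cmp X Y) := fun Y hY =>
    tope_of (hL.comp X hX Y hY.1) fun e => by
      by_cases h : X e = 0
      · rw [cmp_pos h]; exact tope_supp hL hs hY e
      · rw [cmp_neg h]; exact h
  refine ⟨cmp X R, supp R hR, le_cmp X R, ?_⟩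
  have h3 : fl (cmp X R) g = cmp X S := by
    funext e
    by_cases he : e = g
    · subst he
      rw [fl_same, cmp_pos hg, cmp_pos hg]
      exact (sne (tope_supp hL hs hS e) (tope_supp hL hs hR e) h1).symm
    · rw [fl_ne _ he]
      by_cases hx : X e = 0
      · rw [cmp_pos hx, cmp_pos hx, h2 e he]
      · rw [cmp_neg hx, cmp_neg hx]
  change IsTope L (fl (cmp X R) g)
  rw [h3]
  exact supp S hS

end Pool.Agent.helper66.SL
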