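import Pool.Agent.helper66.SL.SpecA

set_option autoImplicit false

namespace Pool.Agent.helper66.SL

open Pool.Agent.helper52.FC

theorem SZZ_proof (hCLO : CLO) : SZZ := by
  intro E _ L hG hcl Z hZ
  have hL := hG.om
  have hs := hG.simple
  have star : ∃ T, IsTope L T ∧ Le Z T := by
    obtain ⟨T0, hT0⟩ := exists_tope hL
    refine ⟨cmp Z T0, tope_of (hL.comp Z hZ.1 T0 hT0.1) fun e => ?_, le_cmp Z T0⟩
    by_cases h : Z e = 0
    · rw [cmp_pos h]; exact tope_supp hL hs hT0 e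
    · rw [cmp_neg h]; exact h
  constructor
  · obtain ⟨T, hT, hZT⟩ := star
    obtain ⟨i, j, hij, h2⟩ := Set.ncard_eq_two.1 (hZ.2 T hT hZT)
    have hsub1 : {e | Wall L T e ∧ Z e = 0} ⊆ {g | Z g = 0} := fun e he => he.2
    have hsub2 : {g | Z g = 0} ⊆ {g | Cl2 L i j g} := by
      intro g hg Y hY hi hj
      refine hCLO E L hL hs Z hZ.1 T hT hZT Y hY (fun e he hze => ?_) g hg
      have : e ∈ ({i, j} : Set E) := h2 ▸ (show e ∈ {e | Wall L T e ∧ Z e = 0} from ⟨he, hze⟩)
      rcases this with h | h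
      · rw [h]; exact hi
      · rw [Set.mem_singleton_iff.1 h]; exact hj
    have h3 := Set.ncard_le_ncard hsub1 (Set.toFinite _)
    have h4 := Set.ncard_le_ncard hsub2 (Set.toFinite _)
    have h5 := hcl i j hij
    have h6 := hZ.2 T hT hZT
    omega
  · intro h2 T hT hZT g hg
    have hsub1 : {e | Wall L T e ∧ Z e = 0} ⊆ {g | Z g = 0} := fun e he => he.2
    have h3 := Set.eq_of_subset_of_ncard_le hsub1 (by rw [h2, hZ.2 T hT hZT]) (Set.toFinite _)
    have : g ∈ {e | Wall L T e ∧ Z e = 0} := by rw [h3]; exact hg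
    exact this.1

end Pool.Agent.helper66.SL
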